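import Pool.Agent.Helper52_KV.Main2

/-!
# Nontrivial knots hidden from Vassiliev invariants of order at most `n`, from all quotients of the
braid group with a short series with abelian or small factors, and from the Jones polynomial at roots
of unity

Sliced diagrams (starting library `Pool.Agent.H835R2.Knot.Defs`): `Word` (words in the elementary
pieces of an oriented diagram, read from top to bottom), `run`, `Front` (the strands below a word),
`IsKnot` (the word is a diagram of an oriented knot), `Isotopic` (diagrams of the same oriented link),
`IsInvariant v` (`v` is an invariant of oriented knots), `DegreeLE n v` (`v` is a finite type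
(Vassiliev) invariant of order at most `n`), `circle` (the crossingless diagram of the unknot).

Diagrams for the Jones polynomial (starting library `Pool.Agent.H891R2.Jones.Diagram`): `Diagram P`
(oriented link diagrams with marked points `P`), `Diagram.fPoly` (the normalised bracket
`(-A^{-3})^{w(D)} ⟨D⟩`, `A = T 1`; it is the Jones polynomial in `t = A^{-4} = T (-4)`),
`Diagram.IsClosed` (the pieces of the diagram fit together to closed oriented curves).

Braid words (starting library `Pool.Agent.W639.RB.Defs`, `Pool.Agent.Y463.SK.Defs`):
`Letter m = Bool × Fin (m - 1)` (the letters `σ_i^{±1}`, `0 ≤ i < m - 1`; `(true, i)` is `σ_i` and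
`(false, i)` is its inverse), `dia (braidClosure m) w` (the closure of the braid word `w` as an
element of `Diagram`), `permW` (the permutation of a braid word), `IsPure` (the permutation is
trivial).

`Pool.Agent.Helper52_KV.Series`: `Series N n S` (`S 0 = G ≥ S 1 ≥ ⋯ ≥ S n = 1` is a series of normal
subgroups of the group `G` such that each factor `S j / S (j + 1)` is abelian or has at most `N`
elements).

`Pool.Agent.Helper52_KV.Defs`: `sliced p w` (the `4`-braid word `w` drawn on the strands
`p, p + 1, p + 2, p + 3` of a sliced diagram), `slicedClosure w` (the closure of the `4`-braid word
`w` as a sliced diagram).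
-/

set_option autoImplicit false

namespace Pool.Agent.Results.MP_5f6b43_gt.HiddenKnots

open LaurentPolynomial Pool.Agent.H891R2.Jones Pool.Agent.W639.RB Pool.Agent.Y463.SK
  Pool.Agent.H835R2.Knot Pool.Agent.Helper52_KV

/-- Let `n`, `k` and `N ≥ 1` be given.  There are pure `4`-braid words `u 0, u 1, u 2, …` such that
for all `i`

* `u i` is mapped to `1` by every homomorphism of the free group on `σ_0, σ_1, σ_2` (hence by every
  homomorphism of the braid group `B_4`) to a group `G` which has a series
  `G = S 0 ≥ S 1 ≥ ⋯ ≥ S n = 1` of normal subgroups of length `n` such that each factor is abelian or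
  has at most `N` elements (for `n ≥ 1` this includes all groups with at most `N` elements and all
  solvable groups of derived length at most `n`);
* inserting `u i` at any place of any oriented knot diagram (at any height at which there are at least
  four strands, on any four consecutive strands with any directions) gives a knot diagram on which all
  Vassiliev invariants of order at most `n`, with values in any abelian group, have the same values as
  before;
* the closure of the `4`-braid `σ_0 σ_1 σ_2 u i` is a knot on which all Vassiliev invariants of order
  at most `n`, with values in any abelian group, have the same values as on the unknot (here it is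
  drawn as a sliced diagram);
* the normalised bracket (the Jones polynomial, `t = T (-4)`) of the closure of `σ_0 σ_1 σ_2 u i`
  (drawn as a closed diagram `dia (braidClosure 4) _`; its permutation has a single cycle) is
  congruent to `1` modulo `(1 - t^N)^k`: the Jones polynomial and its derivatives of order less than
  `k` have the values of the unknot at all roots of unity of order dividing `N`;

and the normalised brackets of these closures are pairwise different (so no two of these knots are
equivalent, and all but at most one of them are nontrivial). -/
theorem result (n N k : ℕ) (hN : 1 ≤ N) :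
    ∃ u : ℕ → List (Letter 4),
    (∀ i, IsPure (u i)) ∧
    (∀ i (G : Type) [Group G] (S : ℕ → Subgroup G), Series N n S →
      ∀ f : Letter 4 → G, (∀ j, f (false, j) = (f (true, j))⁻¹) → ((u i).map f).prod = 1) ∧
    (∀ i (p : ℕ) (x y : Word), IsKnot (x ++ y) → p + 4 ≤ (run x Front.empty).n →
      IsKnot (x ++ sliced p (u i) ++ y) ∧ ∀ (A : Type) [AddCommGroup A] (z : Word → A),
        IsInvariant z → DegreeLE n z → z (x ++ sliced p (u i) ++ y) = z (x ++ y)) ∧
    (∀ i, IsKnot (slicedClosure ([(true, 0), (true, 1), (true, 2)] ++ u i)) ∧
      ∀ (A : Type) [AddCommGroup A] (z : Word → A), IsInvariant z → DegreeLE n z →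
        z (slicedClosure ([(true, 0), (true, 1), (true, 2)] ++ u i)) = z circle) ∧
    (∀ i, (dia (braidClosure 4) ([(true, 0), (true, 1), (true, 2)] ++ u i)).IsClosed ∧
      (∀ x y, (permW ([(true, 0), (true, 1), (true, 2)] ++ u i)).SameCycle x y) ∧
      (1 - T (-4) ^ N : ℤ[T;T⁻¹]) ^ k ∣
        (dia (braidClosure 4) ([(true, 0), (true, 1), (true, 2)] ++ u i)).fPoly - 1) ∧
    Function.Injective
      (fun i => (dia (braidClosure 4) ([(true, 0), (true, 1), (true, 2)] ++ u i)).fPoly) :=
  Pool.Agent.Helper52_KV.main5 n N k hN

end Pool.Agent.Results.MP_5f6b43_gt.HiddenKnots
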